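import Mathlib
import Pool.Agent.H55.SCDefs
import Pool.Agent.H55.SCMain

set_option autoImplicit false

/-!
# Finer strong Choquet topologies with wellordered bases on invariant coanalytic sets, in all models of ZF
-/

namespace Pool.Agent.Results.MP_204fd0_lc.FinerChoquet

open Pool.Agent.H55.SC

universe u

/-- In every model `(M, E)` of `ZF` (so in every model of `ZF + AD`): if `(G, σ)` is a Polish group acting
continuously on the Polish space `(X, τ)` and `P` is an invariant coanalytic subset of `X`, then there is a topology
`t` on `P` which is finer than the original one, has a wellordered basis, is strong Choquet, and for which the action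
of `G` on `P` is continuous. -/
theorem result {M : Type u} (E : M → M → Prop) (hZF : ZF E) (w : M) (hw : IsOmega E w) (G σ X τ P : M)
    [Group (El E G)] [MulAction (El E G) (El E X)] (hGX : IsPolishGSpace E w G σ X τ)
    (hPX : ∀ x, E x P → E x X) (hinv : ∀ (g : El E G) (x : El E X), E x.1 P → E (g • x).1 P)
    (hP : IsAnalytic E w X τ {x | ¬ E x.1 P}) :
    ∃ t, IsTopology E P t ∧ Finer E τ P t ∧ HasWellorderedBasis E t ∧ StrongChoquet E w P t ∧
      Cont₂ E σ t t (fun (g : El E G) (x : El E P) => (g • (⟨x.1, hPX x.1 x.2⟩ : El E X)).1) :=
  Pool.Agent.H55.ZFU.main_zf E hZF w hw G σ X τ P hGX hPX hinv hP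

end Pool.Agent.Results.MP_204fd0_lc.FinerChoquet
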